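import Pool.Agent.K4H39.AJ.DimH

/-!
# The kernel of the complex Abel-Jacobi map on algebraically trivial cycles over number fields

Let `k` be the field of rational numbers or any number field in the complex numbers, `C` the Chow
groups with rational coefficients of the smooth projective geometrically irreducible varieties over
`k` (in the form of their formal properties), `H` the singular cohomology with rational coefficients,
and `aj : CH^i(X)^0 → H^(2i-1)(X, ℂ) / (F^i + H^(2i-1)(X, ℚ))` Griffiths's Abel-Jacobi map up to
torsion. Beilinson and Bloch conjecture that it is injective. By definition an algebraically trivial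
cycle class is of the form `Γ_* c`, where `c` is a zero-cycle of degree zero on a curve `T` and `Γ` is
a cycle on `T × X`.

**Theorem.**
1. An algebraically trivial class `z` in `CH^i(X)` is in the kernel of the Abel-Jacobi map (up to
   torsion) if and only if `z = Γ_* c`, where `c` is a zero-cycle of degree zero on a curve `T` and
   `Γ` is a **homologically trivial** cycle on `T × X`.
2. On algebraically trivial cycles the kernel of the complex Abel-Jacobi map is **equal to the kernel
   of the `p`-adic étale Abel-Jacobi map**, for each prime `p` and each embedding of `k`.
3. For each `r` the following are equivalent: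
   * for all `X` the complex Abel-Jacobi map is injective up to torsion on the algebraically trivial
     cycles of dimension `r`;
   * for all `Y` of dimension `2 r + 3`, `D · Γ = 0` for `D` in `Pic^0(Y)` and `Γ` in
     `CH_(r+1)(Y)^0`, with rational coefficients;
   * homologically trivial families of cycles of dimension `r` are constant: if `Γ` in
     `CH(T × X)` is homologically trivial then `Γ_s = Γ_t` for all points `s`, `t` of `T`.
4. For `r = 0`: the question for the zero-cycles on **all** varieties over `k` is equivalent to
   `D · Γ = 0` for the divisors `D` in `Pic^0(Y)` and the one-dimensional cycles `Γ` in `CH_1(Y)^0` on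
   **threefolds** `Y` over `k`.

No standard conjecture and no finite-dimensionality is assumed. The known facts which enter are the
formal properties of Chow groups, of singular and étale cohomology and of the Abel-Jacobi maps, the
injectivity for divisors, Hodge theory and the purity of étale cohomology, the complete reducibility
and the endomorphisms of Jacobians of curves (`CurveProperties`), and the hyperplane section theorems
(`HyperplaneSections`).

The proof of 1. Let `z = Γ_* c` be in the kernel. The kernel of `Γ_*` on `H^1(T)` is the image of an
algebraic self-correspondence `e` of `T`. As `Γ_*` is injective on `(1 - e) H^1(T)`, it is injective on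
the intermediate Jacobian of this Hodge structure up to torsion, since the weight is odd. So
`(1 - e)_* c` is in the kernel of the Abel-Jacobi map of `T`, and zero. So `z = (Γ ∘ e)_* c`, and
`Γ ∘ e` is homologically trivial.
-/

set_option autoImplicit false

open CategoryTheory AlgebraicGeometry

universe u v w

namespace Pool.Agent.Results.MP_e28333_ag.AlgebraicallyTrivialCycles

open Pool.Agent.H914 Pool.Agent.H914.VarClass Pool.Agent.H914.VarClass.Obj Pool.Agent.W492.BB
  Pool.Agent.W550.Corr Pool.Agent.TH133 Pool.Agent.K4H39.AJ

/-- **The kernel of the complex Abel-Jacobi map on algebraically trivial cycles.** -/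
theorem result {k : Type u} [Field k] {𝒱 : VarClass k} (C : TheoryData.{u, v, 0} 𝒱 ℚ)
    [IsChowProj C] (H : WeilTheoryData.{u, v, 0} C ℚ) [IsWeilProj H]
    (hP : CurveProperties H) (hL : HyperplaneSections H) (A : HodgeAJ H) (hA : A.IsAJ) :
    -- the kernel
    A.KernelIsDoublyTrivial ∧
    -- the kernel of the `p`-adic Abel-Jacobi map
    (∀ (K : Type w) [Field K] (H' : WeilTheoryData.{u, v, w} C K) [IsWeilProj H']
      (A' : AJData H'), CurveProperties H' → A'.IsTheory → SameHomEquiv H H' →
      A.SameKernelP A') ∧
    -- cycles of dimension `r`
    (∀ r : ℕ, List.TFAE [A.InjectiveOnAlgTrivial r, ProductsVanish H r,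
      FamiliesAreConstant H r]) ∧
    -- zero-cycles and threefolds
    (A.InjectiveOnZeroCycles ↔ ProductsVanish H 0) := by
  refine ⟨fun X i z hz => kernel_iff hA.isKernel hP hz, ?_, fun r => main_tfaeH hA hP hL r, ?_⟩
  · intro K _ H' _ A' hP' hA' hcl X i z hz
    exact same_kernel hA.isKernel hP hA'.isAJ.isKernel hP' hcl hz
  · exact (zeroCycles_iffH hP).trans ((main_tfaeH hA hP hL 0).out 0 1)

end Pool.Agent.Results.MP_e28333_ag.AlgebraicallyTrivialCycles
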