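import Pool.Agent.K4H85.CQ.Cplx
import Pool.Agent.K4H85.CQ.OverMod
import Pool.Agent.K4H85.CQ.Ratio

/-!
# The kernels of the complex Abel-Jacobi maps are quantized

Let `K` be the field of rational numbers, or a number field in the complex numbers. Let `X` be a smooth
projective variety over `K` such that

* the motive of `X` is finite-dimensional, in the form of the nilpotence theorem of Kimura: the
  homologically trivial correspondences of `X ^ a` with itself are nilpotent (`Nilpotence`), and
* numerical and homological equivalence agree on the powers of `X` (`NumIsHom`).

Both are theorems for all abelian varieties and for all products of curves (Lieberman; Shermenev,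
Kimura), for example for one elliptic curve `X`. Let `Z` be **any** smooth projective variety over `K`:
nothing is assumed on `Z`. Let `b m` (`classDim`) be the dimension of the space of the classes of
cycles in `H(X ^ m, ℚ)`, and let `N m` (`kernel`, of dimension `kernelDim`) be the kernel of the complex Abel-Jacobi map

  `CH^i(X ^ m × Z)^0 → H^(2i-1)(X ^ m × Z, ℂ) / (F^i + H^(2i-1)(X ^ m × Z, ℚ))`

with rational coefficients, for all codimensions `i` together. Beilinson and Bloch conjecture `N m = 0`.

**Theorem.** The quotient `dim N m / b m` has a limit `κ` for `m → ∞`, and `κ` is one of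
`0, 1, 2, 3, …, ∞` (if it is finite then all `N m` have finite dimension). Moreover

* `κ = 0` if and only if the Abel-Jacobi maps are injective up to torsion on **all** the varieties
  `X ^ m × Z`, `m ≥ 0`, in all codimensions;
* `κ = 0` if and only if there is `ε > 0` such that `dim N m ≤ (1 - ε) b m` for infinitely many `m`;
* if `κ` is not `0` then `dim N m` grows like `B ^ m`, `B` the total Betti number of `X`: there is a
  number `c` such that `B ^ m ≤ c (m + 1) ^ c dim N m` for all large `m`.

So for fixed `X` and `Z` the conjecture is either true for all the varieties `X ^ m × Z`, or there are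
asymptotically at least as many independent cycles in the kernels as there are independent algebraic
classes on `X ^ m`; nothing in between is possible. (One nonzero element `z` of `N n` gives, by the
products with the cycles on `X ^ (m - n)`, at least `b (m - n)` independent elements of `N m`, which is
only about the part `1 / B ^ n` of `b m`.)

The proof. The classes of the correspondences between the powers of `X` are a closed family; by
`NumIsHom` their algebras are semisimple. An element `z` outside a stable family `Q` of subspaces
defines the left ideal of the classes of the correspondences `x` with `x z ∈ Q`; since homologically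
trivial correspondences are nilpotent it does not contain `1`, so it is given by an idempotent `e ≠ 0`,
and the quotient of the families generated by `z` and `Q`, and by `Q`, has on `X ^ m` the dimension of
the space of the algebraic maps from the image of `e` to `H(X ^ m)`, which is about `rank e · b m` by the
count of words of the quantization law for cycle classes (`K4H10.QZ`, `K4H35.QH`). So each step of a
filtration of `N` adds an integer `≥ 1` to the limit. The law for modules over correspondences is
`K4H10.QM`; the vocabulary of Chow groups of `X ^ m × Z` is `K4H67.QW`, in a form with short statements `K4H97.QP` and `K4H85.CQ`.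
-/

set_option autoImplicit false

namespace Pool.Agent.Results.MP_e28333_ag.KernelQuantization

open Filter Topology Pool.Agent.K4H97.QP Pool.Agent.K4H85.CQ

universe u w

/-- **The kernels of the complex Abel-Jacobi maps are quantized.** `X` has the nilpotence property of
Kimura, and numerical and homological equivalence agree on its powers; `Z` is arbitrary. -/
theorem result {X : ChowPowers.{u} ℚ} (hX : X.IsChow) (hK : X.Nilpotence) (hN : X.NumIsHom)
    {Z : ChowOver.{u, w} X} (hZ : Z.IsChow) {A : HodgeAJ Z} (hA : A.IsAJ) :
    ∃ κ : ℕ∞,
      -- `dim N m / b m` tends to `κ`
      HasRatio (HodgeAJ.kernelDim hZ hA) X.classDim κ ∧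
      (κ = 0 ↔ A.Injective) ∧
      (κ = 0 ↔ ∃ ε : ℝ, 0 < ε ∧
        ∃ᶠ m in atTop, AtMost (HodgeAJ.kernelDim hZ hA m) ((1 - ε) * X.classDim m)) ∧
      (κ ≠ 0 → ∃ c : ℕ, ∀ᶠ m in atTop,
        ((Fintype.card X.ι ^ m : ℕ) : Cardinal) ≤
          ((c * (m + 1) ^ c : ℕ) : Cardinal) * HodgeAJ.kernelDim hZ hA m) := by
  have hF : (toModule hX hZ).IsStable (fun m => HodgeAJ.kernel hZ hA m) :=
    fun a c x z hz => HodgeAJ.kernel_stable hZ hA x hz
  obtain ⟨κ, h1, h2, h3, h4⟩ :=
    law (isChow hX) (nilpotence hX hK) (numIsHom hX hN) (toModule hX hZ) hF
  refine ⟨κ, h1, h2.trans ⟨fun h m z hz hz' => ?_, fun h m => ?_⟩, h3, h4⟩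
  · have h5 : z ∈ HodgeAJ.kernel hZ hA m := ⟨hz, hz'⟩
    rw [h m, Submodule.mem_bot] at h5
    exact h5
  · rw [Submodule.eq_bot_iff]
    rintro z ⟨hz, hz'⟩
    exact h m z hz hz'

end Pool.Agent.Results.MP_e28333_ag.KernelQuantization
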