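import Pool.Agent.K4H39.AJ.RatH

/-!
# The complex Abel-Jacobi map over number fields on rational varieties

Let `k` be the field of rational numbers or any number field in the complex numbers, `C` the Chow
groups with rational coefficients of the smooth projective geometrically irreducible varieties over
`k` (in the form of their formal properties), `H` the singular cohomology with rational coefficients,
`R` the rational varieties over `k`, and
`aj : CH^i(X)^0 → H^(2i-1)(X, ℂ) / (F^i + H^(2i-1)(X, ℚ))` Griffiths's Abel-Jacobi map up to
torsion. Beilinson and Bloch conjecture that it is injective.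

**Theorem.** For each `r` the following are equivalent:
1. for all varieties `X` over `k` and all `s ≤ r` the Abel-Jacobi map is injective up to torsion on the
   homologically trivial cycles of dimension `s` on `X`;
2. for all `s ≤ r` the same for the varieties of dimension `2 s + 2`;
3. for all `s ≤ r` the Abel-Jacobi map is injective up to torsion on the homologically trivial cycles
   of dimension `s + 1` on the **rational varieties of dimension `4 s + 4`**;
4. for all `s ≤ r + 1` it is injective up to torsion on the homologically trivial cycles of dimension
   `s` on all rational varieties.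

In particular (`r = 0`): the conjecture for zero-cycles on all varieties, the conjecture for
zero-cycles on surfaces, the conjecture for one-cycles on rational fourfolds and the conjecture for
one-cycles on all rational varieties are equivalent; and the whole conjecture for all varieties
follows from the conjecture for the cycles of dimension `s + 1` on the rational varieties of dimension
`4 s + 4`, for all `s`.

The proof. If `dim X > 2 s + 2`, a cycle of dimension `s` lies on a smooth hypersurface section `Y` and
is homologically trivial there; the direct image is injective on the relevant cohomology group of `Y`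
by the Lefschetz theorem, so it is injective on the intermediate Jacobians up to torsion, by Hodge
theory (the weight is odd). A variety of dimension `2 s + 2` is the centre of a blow-up of a blow-up
of the projective space of dimension `4 s + 4` in points, by a general projection. Conversely, by weak
factorization, cycles on rational varieties are controlled by cycles of smaller dimension on the
centres of blow-ups.
-/

set_option autoImplicit false

open CategoryTheory AlgebraicGeometry

universe u v w

namespace Pool.Agent.Results.MP_e28333_ag.RationalVarieties

open Pool.Agent.H914 Pool.Agent.H914.VarClass Pool.Agent.H914.VarClass.Obj Pool.Agent.W492.BB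
  Pool.Agent.W550.Corr Pool.Agent.TH133 Pool.Agent.K4H39.AJ

/-- **The complex Abel-Jacobi map on rational varieties.** -/
theorem result {k : Type u} [Field k] {𝒱 : VarClass k} (C : TheoryData.{u, v, 0} 𝒱 ℚ)
    [IsChowProj C] (H : WeilTheoryData.{u, v, 0} C ℚ) [IsWeilProj H]
    (hL : LefschetzSections H) (R : Set 𝒱.Obj) (hB : RationalProperties H R) (A : HodgeAJ H)
    (hA : A.IsAJ) :
    -- for each `r`, cycles of dimension at most `r`
    (∀ r : ℕ, List.TFAE [∀ s ≤ r, A.InjectiveOn Set.univ s,
      ∀ s ≤ r, A.InjectiveOn (OfDim Set.univ (2 * s + 2)) s,
      ∀ s ≤ r, A.InjectiveOn (OfDim R (4 * s + 4)) (s + 1),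
      ∀ s ≤ r + 1, A.InjectiveOn R s]) ∧
    -- for each `r`, cycles of dimension `r`
    (∀ r : ℕ, A.InjectiveOn Set.univ r ↔ A.InjectiveOn (OfDim Set.univ (2 * r + 2)) r) ∧
    -- zero-cycles
    List.TFAE [A.InjectiveOn Set.univ 0, A.InjectiveOn (OfDim Set.univ 2) 0,
      A.InjectiveOn (OfDim R 4) 1, A.InjectiveOn R 1] := by
  have hN : IsKernel H (fun X i z => A.IsZero X i z) := hA.isKernel
  have hF : IsFunctorialKernel H (fun X i z => A.IsZero X i z) := hA.isFunctorialKernel
  have h1 : ∀ r : ℕ, List.TFAE [∀ s ≤ r, A.InjectiveOn Set.univ s,
      ∀ s ≤ r, A.InjectiveOn (OfDim Set.univ (2 * s + 2)) s,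
      ∀ s ≤ r, A.InjectiveOn (OfDim R (4 * s + 4)) (s + 1),
      ∀ s ≤ r + 1, A.InjectiveOn R s] := fun r => rational_tfae hN hF hL hB r
  refine ⟨h1, fun r => injOn_univ_iff hN hF hL r, ?_⟩
  have h0 := h1 0
  simp only [Nat.le_zero, forall_eq] at h0
  tfae_have 1 ↔ 2 := h0.out 0 1
  tfae_have 1 ↔ 3 := h0.out 0 2
  tfae_have 4 → 3 := fun h X hX => h X hX.1
  tfae_have 1 → 4 := by
    intro h
    have h4 : ∀ s ≤ 0 + 1, A.InjectiveOn R s := ((h1 0).out 0 3).1 (fun s hs => by
      obtain rfl : s = 0 := by omega
      exact h)
    exact h4 1 le_rfl
  tfae_finish

end Pool.Agent.Results.MP_e28333_ag.RationalVarieties
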