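import Pool.Agent.K4H39.AJ.AbelianH

/-!
# The complex Abel-Jacobi map on abelian varieties over number fields, and translations of cycles

Let `k` be the field of rational numbers or any number field in the complex numbers, `C` the Chow
groups with rational coefficients of the smooth projective geometrically irreducible varieties over
`k` (in the form of their formal properties), `H` the singular cohomology with rational coefficients,
and `M` Griffiths's Abel-Jacobi maps `CH^i(X)^0 → H^(2i-1)(X, ℂ) / (F^i + H^(2i-1)(X, ℚ))` up to
torsion, which Beilinson and Bloch conjecture to be injective. `P` is the point `Spec k`; the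
varieties with a group law are the abelian varieties over `k`, and the morphisms from `P` to `A` are
the rational points of `A`.

**Theorem.** For each `r` the following are equivalent:
1. for all abelian varieties `A` over `k` the Abel-Jacobi map is injective up to torsion on the
   algebraically trivial cycles of dimension `r` on `A`;
2. for all abelian varieties `A` over `k`, `D · Γ = 0` for `D` in `Pic^0(A)` and `Γ` in
   `CH_(r+1)(A)^0`.
For each `s` each of these statements for all `r ≥ s` is equivalent to:
3. for all abelian varieties `A` over `k` and all `r ≥ s`, the **homologically trivial cycles of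
   dimension `r` on `A` are invariant under translations** by the rational points of `A`, modulo
   rational equivalence.
For zero-cycles: the Abel-Jacobi map (the Albanese map) is injective up to torsion on the zero-cycles
of degree zero on all abelian varieties over `k` if and only if `D · Γ = 0` for `D` in `Pic^0(A)` and
`Γ` in `CH_1(A)^0`, for all abelian varieties `A`.

Over the complex numbers all these statements are false, by Mumford's theorem. For one abelian
variety the conjecture for algebraically trivial cycles is a statement about the Beauville
decomposition; the equivalence with the invariance of all homologically trivial cycles needs all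
abelian varieties at once.

The proof. For `z` in `CH(A)^0`, `τ_a^* z - z = (m^* z)_* ([a] - [0])`, where `m^* z` is a homologically
trivial cycle on `A × A`. Write `[a] - [0]` by a divisor on the Jacobian `J` of a curve: this becomes
the direct image of a product of a homologically trivial divisor and a homologically trivial cycle on
`J × A`. So 2 implies 3. Conversely each `D` in `Pic^0(A)` is of the form `τ_a^* L - L` with rational
coefficients, and `(τ_a^* L - L) · Γ = τ_a^* (L · Γ) - L · Γ = 0` if `Γ` and `L · Γ` are invariant. The
equivalence of 1 and 2 uses that the kernel of the Abel-Jacobi map on algebraically trivial cycles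
consists of the classes `Γ_* c` with `c` in `Pic^0` of a curve and `Γ` homologically trivial.
-/

set_option autoImplicit false

open CategoryTheory AlgebraicGeometry

universe u v w

namespace Pool.Agent.Results.MP_e28333_ag.Translations

open Pool.Agent.H914 Pool.Agent.H914.VarClass Pool.Agent.H914.VarClass.Obj Pool.Agent.W492.BB
  Pool.Agent.W550.Corr Pool.Agent.TH133 Pool.Agent.K4H39.AJ

/-- **The complex Abel-Jacobi map on abelian varieties over number fields and translations.** -/
theorem result {k : Type u} [Field k] {𝒱 : VarClass k} (C : TheoryData.{u, v, 0} 𝒱 ℚ)
    [IsChowProj C] (H : WeilTheoryData.{u, v, 0} C ℚ) [IsWeilProj H]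
    {P : 𝒱.Obj} (hP : Limits.IsTerminal P) (hP0 : P.dim = 0) (hR : CurveProperties H)
    (hQ : AbelianProperties H hP) (M : HodgeAJ H) (hM : M.IsAJ) :
    -- cycles of dimension `r`
    (∀ r : ℕ, M.InjectiveOnAbelian hP r ↔ ProductsVanishOnAbelian hP H r) ∧
    -- cycles of dimension at least `s`
    (∀ s : ℕ, List.TFAE [∀ r ≥ s, M.InjectiveOnAbelian hP r,
      ∀ r ≥ s, ProductsVanishOnAbelian hP H r, ∀ r ≥ s, TranslationInvariant hP H r]) ∧
    -- zero-cycles
    (M.InjectiveOnAbelianZero hP ↔ ProductsVanishOnAbelian hP H 0) :=
  ⟨fun r => inj_iff_productsN hM.isKernel hR hQ r,
    fun s => abelian_tfaeN hP0 hM.isKernel hR hQ s,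
    (abelianZero_iff hR).trans (inj_iff_productsN hM.isKernel hR hQ 0)⟩

end Pool.Agent.Results.MP_e28333_ag.Translations
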